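import Pool.Agent.H514R4.Final3
import Pool.Agent.H399R5.TaskBL
import Pool.Agent.H023R3.NIL.Inv1
import Pool.Agent.H514R4.Inv2

/-! For every k there is an interpolation set for inverse limits of (k+1)-step nilsystems that is not an
interpolation set for inverse limits of k-step nilsystems. -/

theorem Pool.Agent.Results.MP_090f02_an.NilsystemSteps.result :
    ∀ k : ℕ, 1 ≤ k → ∃ S : Set ℕ, (∀ n ∈ S, 1 ≤ n) ∧ H514N.IsInterpInv (k + 1) S ∧
      ¬ H514N.IsInterpInv k S :=
  fun k hk => H514N.final_inv H399R5.taskB_lit Pool.Agent.H023R3.NIL.taskInv1 H514N.taskInv2 k hk
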